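import Pool.Agent.Helper320.PCH.FinB

/-!
# Abundance for varieties in correspondence with products of curves of large gonality

Let `W` be a smooth projective variety of dimension `n` over `ℂ`, and let `V` be a variety with
dominant rational maps of finite degree `V ⇢ W` and `V ⇢ C 1 × ... × C n`, where the `C i` are any
smooth projective curves. So `V` is a correspondence between `W` and the product; `W` need not be
dominated by the product of curves, and nothing is assumed on the ramification. For a set `S` of
factors let `d(S)` be the degree over `W` of the image of `V` in `W × ∏ (i ∈ S) C i` (so `d(∅) = 1`, and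
for one factor this is the number of the points of `C i` which correspond to a general point of `W`).
Let the gonality of `C i` be at least `μ i + 2`.

Simplest case: if for every nonempty set `J` of factors, with complement `J'`,
  `2 d(all) ≤ d(J') (1 + ∑ (i ∈ J) μ i)`,
then `W` is of general type, so `κ(W) = ν(W) = n`. For `n = 1` this says that a curve `W` with a
correspondence of degree `d` with a curve of gonality greater than `2 d` has genus at least `2`.

More generally, only some of the factors have to satisfy this: let `Λ` be a set of factors such that
`2 d(all) ≤ d(J') (1 + ∑ (i ∈ J) μ i)` for the sets `J` which meet `Λ`, and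
`d(all) ≤ d(J') (1 + ∑ (i ∈ J) μ i)` for all nonempty `J`. Then `κ(W) ≥ |Λ|`. If `|Λ| ≥ n - 1` then
`κ(W) = ν(W)`, since `ν(W) = n` if and only if `κ(W) = n`; and if `|Λ| ≥ n - 3` then `κ(W) = ν(W)` by
the known case of dimension `3` and theorems of Kawamata and Lai (this remark is not part of the Lean
statement).

In the theorem the factors can moreover be divided into successive blocks: `b i` is the number of the
block of the factor `i`, and the conditions are on the degrees over `W` of the images in the products
of `W` and the factors in the first blocks. For example, if each block has one factor then the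
conditions are on the degrees of the images of `V` in `W × C 1 × ... × C k` over their images in
`W × C 1 × ... × C (k - 1)` only: it is sufficient that each of them is less than half the gonality of
`C k`.

Example. Suppose that all `C i` have gonality at least `μ + 2`, and `2 d(all) ≤ 1 + (r + 1) μ`. Then
`W` is of general type unless there is a set `J` of factors, `1 ≤ |J| ≤ r`, with `d(J') ≤ r / |J|`:
the condition holds for all larger sets `J`, and `d(all) / d(J') > (1 + |J| μ) / 2` if it does not hold
for `J`. So for `d(all) ≤ μ`, `W` is of general type or it dominates the product of all `C i` but one.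

Proof. Let `L = ℂ(W)` and `K = ℂ(V)`. The traces of the products `c 1 ... c n` of regular differentials
of the curves are canonical forms on `W`. If their ratios do not generate a field of transcendence
degree at least `|Λ|` then a vector field on `W` kills all these ratios but not all functions on `C l`,
for some `l ∈ Λ`. This gives a linear relation between the values and the derivatives of the products of
regular differentials at the conjugates of the generic point of `V` over `L`. By the theorem of
Riemann-Roch the differentials of `C i` separate a point from `μ i` others, counted with
multiplicities, over all extensions of the field of constants. The marriage theorem of Hall, applied to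
the conjugates and the coordinates in which they differ from the generic point, distributes the zeros
such that all terms of the relation vanish but one; the number of the conjugates which differ only in
coordinates in `J` is `d(all) / d(J')`. So the relation cannot hold.

The function-field language of the starting repository is used: a form (`IsPluri N`) on a variety of
dimension `n` is a function of `n` rational vector fields; `KodGe ℂ L n (fun _ => False) h` says that
`κ(W) ≥ h`: there are regular `N`-canonical forms, `N ≥ 1`, whose ratios contain `h` algebraically
independent functions (`Pool/Agent/W602/GT`).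
-/

set_option autoImplicit false
set_option linter.overlappingInstances false

open FF Pool.Agent.W602.GT

namespace Pool.Agent.Results.MP_c2a5fc_ag.CurveCorrespondences

/-- `F` is the function field of a curve. -/
def IsCurveField (F : Type) [Field F] [Algebra ℂ F] : Prop :=
  Algebra.EssFiniteType ℂ F ∧ Algebra.trdeg ℂ F = 1

/-- The gonality of the curve with the function field `F` is at least `γ`: all nonconstant functions
have degree at least `γ`. -/
def GonalityGe (F : Type) [Field F] [Algebra ℂ F] (γ : ℕ) : Prop :=
  ∀ t : F, Transcendental ℂ t → γ ≤ Module.finrank (IntermediateField.adjoin ℂ {t}) F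

/-- The degree `d(S)` over `W` of the image of `V` in the product of `W` and the curves with the
function fields `F i`, `i ∈ S`: the degree over `L` of the compositum of `L` and these fields. -/
noncomputable def imageDegree {K : Type} [Field K] [Algebra ℂ K] (L : Type) [Field L]
    [Algebra L K] {n : ℕ} (F : Fin n → IntermediateField ℂ K) (S : Finset (Fin n)) : ℕ :=
  Module.finrank L (IntermediateField.adjoin L (⋃ i ∈ S, (F i : Set K)))

/-- The Kodaira dimension of the smooth projective varieties of dimension `n` over `ℂ` with the
function field `L` is at least `h`. -/
def KappaGe (L : Type) [Field L] [Algebra ℂ L] (n h : ℕ) : Prop :=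
  KodGe ℂ L n (fun _ => False) h

/-- **Correspondences with products of curves of large gonality.** Let `V` be a variety of dimension
`n` with function field `K`, let `V ⇢ ∏ C i` be a dominant rational map of finite degree to the product
of `n` curves with function fields `F i`, of gonality at least `μ i + 2`, and let `V ⇢ W` be a dominant
rational map of finite degree to a smooth projective variety with function field `L`. Let the factors
be divided into blocks by `b`, and let `Λ` be a set of factors, such that for all `k` and all nonempty
sets `J` of factors in the block `k`, the degrees `d = d({i | b i ≤ k})` and `d' = d({i | b i ≤ k} \ J)`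
satisfy: `d ≤ d' (1 + ∑ (i ∈ J) μ i)`; `2 d ≤ d' (1 + ∑ (i ∈ J) μ i)` if `J` meets `Λ`; and
`2 d ≤ d' (2 + ∑ (i ∈ J) μ i)` if a factor in a later block is in `Λ`. Then `κ(W) ≥ |Λ|`. -/
theorem result {n : ℕ} {K : Type} [Field K] [Algebra ℂ K] [Algebra.EssFiniteType ℂ K]
    (hK : Algebra.trdeg ℂ K = n) (F : Fin n → IntermediateField ℂ K)
    (hF : ∀ i, IsCurveField (F i))
    (halg : Algebra.IsAlgebraic (⨆ i, F i : IntermediateField ℂ K) K)
    (L : Type) [Field L] [Algebra ℂ L] [Algebra L K] [IsScalarTower ℂ L K]
    [FiniteDimensional L K]
    (μ : Fin n → ℕ) (hμ : ∀ i, GonalityGe (F i) (μ i + 2)) (b : Fin n → ℕ) (Λ : Finset (Fin n))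
    (h1 : ∀ (k : ℕ) (J : Finset (Fin n)), J.Nonempty → (∀ i ∈ J, b i = k) →
      imageDegree L F (Finset.univ.filter fun i => b i ≤ k) ≤
        imageDegree L F (Finset.univ.filter fun i => b i ≤ k ∧ i ∉ J) * (∑ i ∈ J, μ i + 1))
    (h2 : ∀ (k : ℕ) (J : Finset (Fin n)), (∃ l ∈ J, l ∈ Λ) → (∀ i ∈ J, b i = k) →
      2 * imageDegree L F (Finset.univ.filter fun i => b i ≤ k) ≤
        imageDegree L F (Finset.univ.filter fun i => b i ≤ k ∧ i ∉ J) * (∑ i ∈ J, μ i + 1))
    (h3 : ∀ k : ℕ, (∃ l ∈ Λ, k < b l) → ∀ J : Finset (Fin n), J.Nonempty → (∀ i ∈ J, b i = k) →
      2 * imageDegree L F (Finset.univ.filter fun i => b i ≤ k) ≤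
        imageDegree L F (Finset.univ.filter fun i => b i ≤ k ∧ i ∉ J) * (∑ i ∈ J, μ i + 2)) :
    KappaGe L n Λ.card :=
  have hFF : ∀ i, IsFF ℂ (F i) := fun i => ⟨(hF i).1, (hF i).2⟩
  Pool.Agent.Helper320.PCH.kodV hK F (fun _ => ∅) (fun z => halg.isAlgebraic z) L b μ
    (fun i t ht _ => hμ i t ht) (fun _ => False)
    (fun _ _ _ _ ⟨_, _, hp, _⟩ => (Finset.notMem_empty _ hp).elim) Λ h1 h2 h3

end Pool.Agent.Results.MP_c2a5fc_ag.CurveCorrespondences
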